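import Pool.Agent.Helper50.LF.Names
import Pool.Agent.Helper32.FR.Defs
import Pool.Agent.Helper93.FR.Tower

/-!
# LF-10: the tower of the forcing of project FR, strict version
-/

set_option autoImplicit false
set_option linter.unusedSectionVars false

namespace Pool.Agent.Helper50.LF

open Pool.Agent.Helper33.HM Pool.Agent.Helper94.BA
open Pool.Agent.Helper32.FR (aN OmOne FT aT brN PB TC h68_exists_big h68_mem_aN h68_of_mem_aN
  h93_tower_inf h93_tower_max h93_dec h93_fin_eN h93_fin_base eN_ce eN mem_brN)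

theorem h72_exists_big {Ω : Type} [LinearOrder Ω] (p : TC Ω) (x y : Ω) (hx : x ∈ p.d)
    (hxy : y ≠ x) (hR : ¬ p.R y x) (m : ℕ) :
    ∃ q : TC Ω, q ≤ p ∧ ∃ k, m ≤ k ∧ k < q.n ∧ q.a x k ∧ ¬ q.a y k := by
  refine ⟨⟨p.d, p.R, max p.n m + 1, fun z k => (k < p.n ∧ p.a z k) ∨
      (p.n ≤ k ∧ (z = x ∨ p.R z x)), p.lt, p.trans, p.tree⟩,
    ⟨subset_rfl, ?_, fun _ _ _ _ => Iff.rfl, ?_, ?_⟩, max p.n m, le_max_right _ _,
      Nat.lt_succ_self _, Or.inr ⟨le_max_left _ _, Or.inl rfl⟩, ?_⟩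
  · exact (le_max_left p.n m).trans (Nat.le_succ _)
  · intro z _ k hk
    constructor
    · rintro (h | h)
      · exact h.2
      · exact absurd hk (not_lt.2 h.1)
    · exact fun h => Or.inl ⟨hk, h⟩
  · intro u hu v hv k hk _
    constructor
    · rintro huv (h | ⟨-, h⟩)
      · exact absurd h.1 (not_lt.2 hk)
      · right
        refine ⟨hk, Or.inr ?_⟩
        rcases h with rfl | h
        · exact huv
        · exact p.trans u hu v hv x hx huv h
    · rintro hn ⟨h1 | ⟨-, h1⟩, h2 | ⟨-, h2⟩⟩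
      · exact absurd h1.1 (not_lt.2 hk)
      · exact absurd h1.1 (not_lt.2 hk)
      · exact absurd h2.1 (not_lt.2 hk)
      · apply hn
        rcases h1 with rfl | h1
        · rcases h2 with rfl | h2
          · exact Or.inl rfl
          · exact Or.inr (Or.inr h2)
        · rcases h2 with rfl | h2
          · exact Or.inr (Or.inl h1)
          · exact p.tree u hu v hv x hx h1 h2
  · rintro (h | ⟨-, h | h⟩)
    · exact absurd h.1 (not_lt.2 (le_max_left p.n m))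
    · exact hxy h
    · exact hR h

/-- In the base poset: the set with index `x` is not almost contained in the one with a larger
index. -/
theorem h72_aN_str {Ω : Type} [LinearOrder Ω] {p : PB Ω} {x y : Ω} (hx : x ∈ p.down.d)
    (hy : y ∈ p.down.d) (hxy : x < y) :
    p ∉ finV ((aN x : ℕ → RO (PB Ω)) ⊓ (aN y)ᶜ) := by
  intro hp
  obtain ⟨q, hqp, m, hq⟩ := RO.mem_iSup.1 hp p le_rfl
  have hqp' : TC.Le q.down p.down := hqp
  have hxq : x ∈ q.down.d := hqp'.1 hx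
  have hyq : y ∈ q.down.d := hqp'.1 hy
  have hR : ¬ q.down.R y x := fun h => absurd (q.down.lt y hyq x hxq h) (not_lt.2 hxy.le)
  obtain ⟨q2, h2, k, hmk, hk, hax, hay⟩ := h72_exists_big q.down x y hxq hxy.ne' hR m
  have h2' : TC.Le q2 q.down := h2
  have h3 : q ∈ (((aN x : ℕ → RO (PB Ω)) ⊓ (aN y)ᶜ) k)ᶜ := RO.mem_iInf.1 (RO.mem_iInf.1 hq k) hmk
  have hle : (ULift.up q2 : PB Ω) ≤ q := h2
  refine RO.mem_compl.1 h3 (ULift.up q2) hle ⟨h68_mem_aN (p := ULift.up q2) (h2'.1 hxq) hk hax, ?_⟩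
  show (ULift.up q2 : PB Ω) ∈ (aN y k)ᶜ
  refine RO.mem_compl.2 fun r hr hr' => ?_
  obtain ⟨s, hs, hys, hks, has⟩ := h68_of_mem_aN hr'
  have hsq : TC.Le s.down q2 := hs.trans hr
  exact hay ((hsq.2.2.2.1 y (h2'.1 hyq) k hk).1 has)

section Twr

variable {Ω : Type} [LinearOrder Ω] {I : Type 1} [LinearOrder I]
variable {F : I → Set (Name (PB Ω) I)} {ℓ : I}

theorem h72_dec (x y : Ω) (hxy : x < y) : (brN x : RO (FT F ℓ)) ⊓ brN y ≤
    finV (aT y ⊓ (aT x)ᶜ) := by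
  intro w hw
  refine RO.mem_reg fun v hv => ?_
  obtain ⟨u, hu, hxu⟩ := mem_brN.1 hw.1 v hv
  obtain ⟨u', hu', hyu'⟩ := mem_brN.1 hw.2 u (hu.trans hv)
  have hxu' : x ∈ u'.1.2 := hu'.2 hxu
  refine ⟨u', hu'.trans hu, ?_⟩
  rcases u'.2.2 x hxu' y hyu' with h | h | h
  · exact absurd h hxy.ne
  · exact h93_dec hxu' hyu' h
  · exact absurd (u'.1.1.1.base.down.lt y (u'.2.1 hyu') x (u'.2.1 hxu') h) (not_lt.2 hxy.le)

theorem h72_str (x y : Ω) (hxy : x < y) : (brN x : RO (FT F ℓ)) ⊓ brN y ⊓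
    finV (aT x ⊓ (aT y)ᶜ) = ⊥ := by
  by_contra hne
  obtain ⟨w, hw⟩ := RO.ne_bot_iff.1 hne
  obtain ⟨u, hu, hxu⟩ := mem_brN.1 hw.1.1 w le_rfl
  obtain ⟨u', hu', hyu'⟩ := mem_brN.1 hw.1.2 u hu
  have hxu' : x ∈ u'.1.2 := hu'.2 hxu
  have h1 : u' ∈ finV ((aT x : ℕ → RO (FT F ℓ)) ⊓ (aT y)ᶜ) :=
    RO.mem_lower (hu'.trans hu) hw.2
  have h2 : ((aT x : ℕ → RO (FT F ℓ)) ⊓ (aT y)ᶜ) =
      fun k => eN (baseE (((aN x : ℕ → RO (PB Ω)) ⊓ (aN y)ᶜ) k)) := by
    funext k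
    rw [Pi.inf_apply, Pi.inf_apply, Pi.compl_apply, Pi.compl_apply,
      (baseE_ce (F := F) (ℓ := ℓ)).map_inf, (eN_ce (F := F) (ℓ := ℓ)).map_inf,
      (baseE_ce (F := F) (ℓ := ℓ)).map_compl, (eN_ce (F := F) (ℓ := ℓ)).map_compl]
    rfl
  rw [h2, h93_fin_eN, h93_fin_base] at h1
  exact h72_aN_str (u'.2.1 hxu') (u'.2.1 hyu') hxy h1

end Twr

theorem ft_twr {Ω : Type} [LinearOrder Ω] [WellFoundedLT Ω] {I : Type 1} [LinearOrder I]
    {F : I → Set (Name (PB Ω) I)} {ℓ : I} (h : OmOne Ω) :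
    Twr (aT : Ω → ℕ → RO (FT F ℓ)) (brN : Ω → RO (FT F ℓ)) where
  wf := inferInstance
  inf := h93_tower_inf
  dec := h72_dec
  str := h72_str
  max := h93_tower_max h

theorem exists_omOne' : ∃ (Ω : Type) (_ : LinearOrder Ω), WellFoundedLT Ω ∧ OmOne Ω := by
  refine ⟨(Cardinal.aleph 1).ord.ToType, inferInstance, inferInstance, ?_, ?_⟩
  · intro x
    have h1 : Cardinal.mk (Set.Iio x) < Order.succ Cardinal.aleph0 :=
      (Cardinal.mk_Iio_toType_ord_lt x).trans_eq Cardinal.succ_aleph0.symm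
    have h2 : (Set.Iio x).Countable := by
      rw [← Cardinal.le_aleph0_iff_set_countable]
      exact Order.lt_succ_iff.1 h1
    have h3 : Set.Iic x = insert x (Set.Iio x) := by
      ext y
      simp [le_iff_eq_or_lt]
    rw [h3]
    exact h2.insert x
  · intro S hS
    by_contra hcon
    push Not at hcon
    have h1 : IsCofinal S := fun y => hcon y
    have h2 := Order.cof_le h1
    rw [Ordinal.cof_toType, Cardinal.isRegular_aleph_one.cof_ord] at h2
    have h3 : Cardinal.mk S ≤ Cardinal.aleph0 := Cardinal.le_aleph0_iff_set_countable.2 hS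
    exact absurd (h2.trans h3) (not_le.2 Cardinal.aleph0_lt_aleph_one)

end Pool.Agent.Helper50.LF
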